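import Mathlib
import Pool.Agent.H12.NonSquare

/-!
A large sieve by finitely many primes: the integers `g < L` for which `q ∣ A - σ (8 g - 1)` implies
`q ^ 2 ∣ A - σ (8 g - 1)` for all primes `q` modulo which `-σ` is not a square have density zero.
-/

namespace Pool.Agent.H6.GN

open Finset

/-- the linear function -/
def lin (A : ℤ) (σ : ℕ) (g : ℤ) : ℤ := A - σ * (8 * g - 1)

theorem lin_sub (A : ℤ) (σ : ℕ) (g h : ℤ) : lin A σ g - lin A σ h = 8 * σ * (h - g) := by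
  unfold lin; ring

/-- residues which survive -/
def good (A : ℤ) (σ q : ℕ) : Finset ℕ :=
  (range (q ^ 2)).filter fun r => (q : ℤ) ∣ lin A σ r → (q : ℤ) ^ 2 ∣ lin A σ r

theorem card_good (A : ℤ) (σ q : ℕ) (hq : q.Prime) (h2 : q ≠ 2) (hσ : ¬ q ∣ σ) :
    (good A σ q).card + (q - 1) ≤ q ^ 2 := by
  classical
  have hcop : IsCoprime ((8 * σ : ℤ)) ((q : ℤ) ^ 2) := by
    apply IsCoprime.pow_right
    have : Nat.Coprime (8 * σ) q := by
      refine Nat.Coprime.mul_left ?_ ?_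
      · have : Nat.Coprime (2 ^ 3) q := Nat.Coprime.pow_left 3
          ((Nat.coprime_primes Nat.prime_two hq).mpr h2.symm)
        simpa using this
      · exact ((Nat.Prime.coprime_iff_not_dvd hq).mpr hσ).symm
    have := Nat.isCoprime_iff_coprime.2 this
    push_cast at this
    exact this
  have hqZ : Prime (q : ℤ) := Nat.prime_iff_prime_int.1 hq
  have hq8 : ¬ (q : ℤ) ∣ 8 * σ := by
    intro h
    have h3 : IsCoprime (8 * σ : ℤ) (q : ℤ) := hcop.of_isCoprime_of_dvd_right (dvd_pow_self _ two_ne_zero)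
    exact hqZ.not_isUnit (h3.isUnit_of_dvd' h dvd_rfl)
  obtain ⟨u, v, huv⟩ := hcop
  set r0 : ℤ := u * (A + σ) with hr0
  have hf0 : (q : ℤ) ^ 2 ∣ lin A σ r0 := by
    refine ⟨v * (A + σ), ?_⟩
    have : lin A σ r0 = (A + σ) * (1 - u * (8 * σ)) := by unfold lin; rw [hr0]; ring
    rw [this, ← huv]; ring
  have hq0 : (0 : ℤ) < (q : ℤ) ^ 2 := by have := hq.pos; positivity
  set φ : ℕ → ℕ := fun j => ((r0 + j * q) % (q : ℤ) ^ 2).toNat with hφ
  have hφc : ∀ j, ((φ j : ℕ) : ℤ) = (r0 + j * q) % (q : ℤ) ^ 2 := fun j => by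
    rw [hφ]; exact Int.toNat_of_nonneg (Int.emod_nonneg _ hq0.ne')
  have hmod : ∀ j, (q : ℤ) ^ 2 ∣ (r0 + j * q) - (φ j : ℕ) := fun j => by
    rw [hφc]; exact Int.dvd_self_sub_emod
  have hlin : ∀ j : ℕ, (q : ℤ) ^ 2 ∣ lin A σ (φ j) + 8 * σ * (j * q) := by
    intro j
    have h1 : lin A σ (φ j) + 8 * σ * (j * q) =
        lin A σ r0 + 8 * σ * ((r0 + j * q) - (φ j : ℕ)) := by unfold lin; ring
    rw [h1]
    exact dvd_add hf0 (Dvd.dvd.mul_left (hmod j) _)
  have hmaps : ∀ j ∈ Finset.Icc 1 (q - 1), φ j ∈ (range (q ^ 2)) \ good A σ q := by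
    intro j hj
    rw [Finset.mem_Icc] at hj
    rw [mem_sdiff, mem_range]
    constructor
    · have := Int.emod_lt_of_pos (r0 + j * q) hq0
      rw [← hφc] at this
      exact_mod_cast this
    · intro hg
      rw [good, mem_filter] at hg
      have h1 := hlin j
      have h2 : (q : ℤ) ∣ lin A σ (φ j) := by
        have h3 : (q : ℤ) ∣ lin A σ (φ j) + 8 * σ * (j * q) := (dvd_pow_self _ two_ne_zero).trans h1
        have h4 : (q : ℤ) ∣ 8 * σ * (j * q) := ⟨8 * σ * j, by ring⟩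
        exact (dvd_add_left h4).1 h3
      have h5 := hg.2 h2
      have h6 : (q : ℤ) ^ 2 ∣ 8 * σ * (j * q) := (dvd_add_right h5).1 h1
      have h7 : (q : ℤ) ∣ 8 * σ * j := by
        have h8 : (q : ℤ) * q ∣ (8 * σ * j) * q := by
          have : (8 * σ * j : ℤ) * q = 8 * σ * (j * q) := by ring
          rw [this, ← sq]; exact h6
        exact Int.dvd_of_mul_dvd_mul_right (by exact_mod_cast hq.ne_zero) h8
      rcases hqZ.dvd_or_dvd h7 with h8 | h8
      · exact hq8 h8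
      · have := Nat.le_of_dvd (by omega) (by exact_mod_cast h8 : q ∣ j)
        have := hq.two_le
        omega
  have hinj : Set.InjOn φ (Finset.Icc 1 (q - 1) : Finset ℕ) := by
    intro i hi j hj hij
    rw [Finset.coe_Icc, Set.mem_Icc] at hi hj
    have h1 := hmod i
    have h2 := hmod j
    rw [← hij] at h2
    have h3 : (q : ℤ) ^ 2 ∣ ((i : ℤ) - j) * q := by
      have := dvd_sub h1 h2
      have e : r0 + (i : ℤ) * q - (φ i : ℕ) - (r0 + j * q - (φ i : ℕ)) = ((i : ℤ) - j) * q := by ring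
      rwa [e] at this
    have h4 : (q : ℤ) ∣ (i : ℤ) - j := by
      rw [sq] at h3
      exact Int.dvd_of_mul_dvd_mul_right (by exact_mod_cast hq.ne_zero) h3
    have h5 : (i : ℤ) - j = 0 := by
      apply Int.eq_zero_of_abs_lt_dvd h4
      rw [abs_lt]
      have := hq.two_le
      constructor <;> omega
    omega
  have hcard := Finset.card_le_card_of_injOn φ hmaps hinj
  have hsub : good A σ q ⊆ range (q ^ 2) := Finset.filter_subset _ _
  rw [Nat.card_Icc, Finset.card_sdiff_of_subset hsub, card_range] at hcard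
  have := hq.two_le
  have h9 : (good A σ q).card ≤ q ^ 2 := by
    have := Finset.card_le_card hsub
    rwa [card_range] at this
  omega

/-- the integers below the product of the squares which survive -/
theorem card_all (A : ℤ) (σ : ℕ) (P : Finset ℕ) (hP : ∀ q ∈ P, q.Prime) :
    ((range (∏ q ∈ P, q ^ 2)).filter fun r : ℕ => ∀ q ∈ P, (q : ℤ) ∣ lin A σ r →
      (q : ℤ) ^ 2 ∣ lin A σ r).card ≤ ∏ q ∈ P, (good A σ q).card := by
  classical
  rw [← Finset.card_pi]
  refine Finset.card_le_card_of_injOn (fun r => fun q _ => r % q ^ 2) ?_ ?_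
  · intro r hr
    rw [Finset.mem_coe, mem_filter] at hr
    rw [Finset.mem_coe, Finset.mem_pi]
    intro q hq
    have hq0 : 0 < q ^ 2 := pow_pos (hP q hq).pos 2
    rw [good, mem_filter, mem_range]
    refine ⟨Nat.mod_lt _ hq0, ?_⟩
    have h1 : (q : ℤ) ^ 2 ∣ lin A σ ((r % q ^ 2 : ℕ) : ℤ) - lin A σ r := by
      rw [lin_sub]
      have : (q : ℤ) ^ 2 ∣ (r : ℤ) - ((r % q ^ 2 : ℕ) : ℤ) := by
        push_cast
        exact Int.dvd_self_sub_emod
      exact Dvd.dvd.mul_left this _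
    intro h2
    have h3 : (q : ℤ) ∣ lin A σ r := by
      have := (dvd_pow_self (q : ℤ) two_ne_zero).trans h1
      exact (dvd_sub_right h2).1 this
    have h4 := hr.2 q hq h3
    exact (dvd_sub_left h4).1 h1
  · intro r hr s hs hrs
    rw [Finset.mem_coe, mem_filter, mem_range] at hr hs
    have h1 : ∀ q ∈ P, ((q ^ 2 : ℕ) : ℤ) ∣ (r : ℤ) - s := by
      intro q hq
      have := congrFun (congrFun hrs q) hq
      exact (Nat.modEq_iff_dvd.1 (this : r % q ^ 2 = s % q ^ 2).symm)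
    have h2 : (∏ q ∈ P, ((q ^ 2 : ℕ) : ℤ)) ∣ (r : ℤ) - s := by
      refine Finset.prod_dvd_of_coprime ?_ h1
      intro p hp q hq hpq
      rw [Function.onFun]
      rw [Nat.isCoprime_iff_coprime]
      exact Nat.Coprime.pow 2 2 ((Nat.coprime_primes (hP p hp) (hP q hq)).2 hpq)
    have h3 : (r : ℤ) - s = 0 := by
      apply Int.eq_zero_of_abs_lt_dvd h2
      have h4 : (∏ q ∈ P, ((q ^ 2 : ℕ) : ℤ)) = ((∏ q ∈ P, q ^ 2 : ℕ) : ℤ) := by push_cast; rfl
      rw [h4, abs_lt]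
      have := hr.1
      have := hs.1
      constructor <;> omega
    omega

theorem sieve (σ : ℕ) (hσ : 0 < σ) (ε : ℝ) (hε : 0 < ε) : ∃ D : ℕ, ∀ (A : ℤ) (L : ℕ), D ≤ L →
    ∀ F : Finset ℕ, (∀ g ∈ F, g < L ∧ ∀ q : ℕ, q.Prime → ¬ IsSquare (-(σ : ZMod q)) →
      (q : ℤ) ∣ A - σ * (8 * g - 1) → (q : ℤ) ^ 2 ∣ A - σ * (8 * g - 1)) →
      (F.card : ℝ) ≤ ε * L := by
  classical
  have hns : ¬ IsSquare (-(σ : ℤ)) := by
    rintro ⟨r, hr⟩
    have h1 : (0 : ℤ) < σ := by exact_mod_cast hσ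
    nlinarith [mul_self_nonneg r]
  obtain ⟨P, hP, hsum⟩ := Pool.Agent.H12.exists_primes_nonres (-(σ : ℤ)) hns
    (2 * Real.log (2 / ε))
  have hprime : ∀ q ∈ P, q.Prime := fun q hq => (hP q hq).1
  have hsq : ∀ q ∈ P, ¬ IsSquare (-(σ : ZMod q)) := fun q hq => by
    have := (hP q hq).2
    push_cast at this
    exact this
  have h2 : ∀ q ∈ P, q ≠ 2 := by
    rintro q hq rfl
    apply hsq 2 hq
    generalize -(σ : ZMod 2) = x
    revert x
    decide
  have hdvd : ∀ q ∈ P, ¬ q ∣ σ := by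
    intro q hq h
    apply hsq q hq
    rw [(ZMod.natCast_eq_zero_iff σ q).2 h, neg_zero]
    exact IsSquare.zero
  set N : ℕ := ∏ q ∈ P, q ^ 2 with hN
  have hN0 : 0 < N := Finset.prod_pos fun q hq => pow_pos (hprime q hq).pos 2
  have hprod : ∀ A : ℤ, ((∏ q ∈ P, (good A σ q).card : ℕ) : ℝ) ≤ ε / 2 * N := by
    intro A
    have h1 : ((∏ q ∈ P, (good A σ q).card : ℕ) : ℝ) ≤
        ∏ q ∈ P, ((q : ℝ) ^ 2 * Real.exp (-(1 / (2 * q)))) := by
      push_cast
      refine Finset.prod_le_prod (fun q _ => Nat.cast_nonneg _) fun q hq => ?_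
      have hq2 : (2 : ℝ) ≤ q := by exact_mod_cast (hprime q hq).two_le
      have h3 := card_good A σ q (hprime q hq) (h2 q hq) (hdvd q hq)
      have h4 : ((good A σ q).card : ℝ) + (q - 1) ≤ (q : ℝ) ^ 2 := by
        have : (((good A σ q).card + (q - 1) : ℕ) : ℝ) ≤ ((q ^ 2 : ℕ) : ℝ) := by exact_mod_cast h3
        rw [Nat.cast_add, Nat.cast_sub (hprime q hq).one_le] at this
        push_cast at this
        exact this
      have h5 : 1 - 1 / (2 * (q : ℝ)) ≤ Real.exp (-(1 / (2 * q))) := by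
        have := Real.add_one_le_exp (-(1 / (2 * (q : ℝ))))
        linarith
      have h6 : (q : ℝ) ^ 2 * (1 - 1 / (2 * (q : ℝ))) = (q : ℝ) ^ 2 - q / 2 := by
        field_simp
      have h7 := mul_le_mul_of_nonneg_left h5 (by positivity : (0 : ℝ) ≤ (q : ℝ) ^ 2)
      rw [h6] at h7
      linarith
    refine h1.trans ?_
    rw [Finset.prod_mul_distrib, ← Real.exp_sum]
    have h3 : ∑ q ∈ P, -(1 / (2 * (q : ℝ))) = -(1 / 2 * ∑ q ∈ P, (1 : ℝ) / q) := by
      rw [Finset.mul_sum, ← Finset.sum_neg_distrib]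
      refine Finset.sum_congr rfl fun q _ => ?_
      rw [one_div_mul_one_div]
    have h4 : Real.exp (∑ q ∈ P, -(1 / (2 * (q : ℝ)))) ≤ ε / 2 := by
      rw [h3]
      have h5 : -(1 / 2 * ∑ q ∈ P, (1 : ℝ) / q) ≤ -Real.log (2 / ε) := by linarith
      refine (Real.exp_le_exp.2 h5).trans ?_
      rw [Real.exp_neg, Real.exp_log (by positivity), inv_div]
    have h5 : (∏ q ∈ P, (q : ℝ) ^ 2) = (N : ℝ) := by rw [hN]; push_cast; rfl
    rw [h5, mul_comm]
    exact mul_le_mul_of_nonneg_right h4 (Nat.cast_nonneg _)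
  refine ⟨N, fun A L hL F hF => ?_⟩
  set G := (range N).filter fun r : ℕ => ∀ q ∈ P, (q : ℤ) ∣ lin A σ r →
      (q : ℤ) ^ 2 ∣ lin A σ r with hG
  have hcardG : (G.card : ℝ) ≤ ε / 2 * N := by
    have := card_all A σ P hprime
    exact (Nat.cast_le.2 this).trans (hprod A)
  have hcard : F.card ≤ (L / N + 1) * G.card := by
    rw [← card_range (L / N + 1), ← Finset.card_product]
    refine Finset.card_le_card_of_injOn (fun g => (g / N, g % N)) ?_ ?_
    · intro g hg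
      obtain ⟨h1, h3⟩ := hF g hg
      rw [Finset.mem_coe, Finset.mem_product, mem_range, hG, mem_filter, mem_range]
      refine ⟨Nat.lt_succ_of_le (Nat.div_le_div_right h1.le), Nat.mod_lt _ hN0, fun q hq h4 => ?_⟩
      have hqN : (q : ℤ) ^ 2 ∣ (N : ℤ) := by
        have : q ^ 2 ∣ N := Finset.dvd_prod_of_mem (fun q => q ^ 2) hq
        exact_mod_cast this
      have h5 : (q : ℤ) ^ 2 ∣ lin A σ ((g % N : ℕ) : ℤ) - lin A σ g := by
        rw [lin_sub]
        have : (N : ℤ) ∣ (g : ℤ) - ((g % N : ℕ) : ℤ) := by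
          push_cast
          exact Int.dvd_self_sub_emod
        exact Dvd.dvd.mul_left (hqN.trans this) _
      have h6 : (q : ℤ) ∣ lin A σ g :=
        (dvd_sub_right h4).1 ((dvd_pow_self (q : ℤ) two_ne_zero).trans h5)
      have h7 : (q : ℤ) ^ 2 ∣ lin A σ g := h3 q (hprime q hq) (hsq q hq) h6
      exact (dvd_sub_left h7).1 h5
    · intro g _ h _ hgh
      rw [Prod.mk.injEq] at hgh
      rw [← Nat.div_add_mod g N, ← Nat.div_add_mod h N, hgh.1, hgh.2]
  have h3 : ((L / N + 1 : ℕ) : ℝ) * N ≤ 2 * L := by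
    have h4 : (L / N + 1) * N ≤ 2 * L := by
      have := Nat.div_mul_le_self L N
      nlinarith
    exact_mod_cast h4
  have h4 : (F.card : ℝ) ≤ ((L / N + 1 : ℕ) : ℝ) * G.card := by exact_mod_cast hcard
  calc (F.card : ℝ) ≤ ((L / N + 1 : ℕ) : ℝ) * G.card := h4
    _ ≤ ((L / N + 1 : ℕ) : ℝ) * (ε / 2 * N) := mul_le_mul_of_nonneg_left hcardG (Nat.cast_nonneg _)
    _ = ε / 2 * (((L / N + 1 : ℕ) : ℝ) * N) := by ring
    _ ≤ ε / 2 * (2 * L) := mul_le_mul_of_nonneg_left h3 (by positivity)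
    _ = ε * L := by ring

end Pool.Agent.H6.GN
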